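import Pool.Agent.H622R2.MatGraph

/-!
# CIS graphs: the graph of a formula
-/

set_option autoImplicit false

namespace Pool.Agent.W950

open Pool.Agent.H622R2 (labGraph)

/-- A graph is CIS when every maximal clique meets every maximal stable set. -/
def IsCIS {V : Type} (G : SimpleGraph V) : Prop :=
  ∀ C S : Set V, Maximal G.IsClique C → Maximal G.IsIndepSet S → (C ∩ S).Nonempty

theorem maximal_clique_image {V W : Type} {G : SimpleGraph V} {H : SimpleGraph W} (e : G ≃g H)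
    {C : Set V} (hC : Maximal G.IsClique C) : Maximal H.IsClique (e '' C) := by
  refine ⟨?_, ?_⟩
  · rintro _ ⟨a, ha, rfl⟩ _ ⟨b, hb, rfl⟩ hab
    exact (e.map_adj_iff).2 (hC.1 ha hb (fun h => hab (by rw [h])))
  · intro T hT hST x hx
    have h1 : G.IsClique (e ⁻¹' T) := by
      intro a ha b hb hab
      exact (e.map_adj_iff).1 (hT ha hb (fun h' => hab (e.injective h')))
    have h2 : C ⊆ e ⁻¹' T := fun s hs => hST ⟨s, hs, rfl⟩
    exact ⟨e.symm x, hC.2 h1 h2 (by simpa using hx), by simp⟩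

theorem maximal_indep_image {V W : Type} {G : SimpleGraph V} {H : SimpleGraph W} (e : G ≃g H)
    {C : Set V} (hC : Maximal G.IsIndepSet C) : Maximal H.IsIndepSet (e '' C) := by
  refine ⟨?_, ?_⟩
  · rintro _ ⟨a, ha, rfl⟩ _ ⟨b, hb, rfl⟩ hab h
    exact hC.1 ha hb (fun h => hab (by rw [h])) ((e.map_adj_iff).1 h)
  · intro T hT hST x hx
    have h1 : G.IsIndepSet (e ⁻¹' T) := by
      intro a ha b hb hab h
      exact hT ha hb (fun h' => hab (e.injective h')) ((e.map_adj_iff).2 h)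
    have h2 : C ⊆ e ⁻¹' T := fun s hs => hST ⟨s, hs, rfl⟩
    exact ⟨e.symm x, hC.2 h1 h2 (by simpa using hx), by simp⟩

theorem IsCIS.of_iso {V W : Type} {G : SimpleGraph V} {H : SimpleGraph W} (e : G ≃g H)
    (h : IsCIS H) : IsCIS G := by
  intro C S hC hS
  obtain ⟨_, ⟨a, ha, rfl⟩, b, hb, hab⟩ :=
    h _ _ (maximal_clique_image e hC) (maximal_indep_image e hS)
  have := e.injective hab
  subst this
  exact ⟨b, ha, hb⟩

/-- Labels of vertices: `inl (i, a)` is the literal saying that the variable `i` has the value `a`;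
`inr (k, i, a)`, for a variable `i` not in the clause `k`, is the copy of the clause vertex `k`
for this literal; `inr (k, n, false)` is the clause vertex `k` (where `n` is the number of
variables). -/
abbrev Lc := (ℕ × Bool) ⊕ (ℕ × ℕ × Bool)

/-- Adjacency (to be symmetrised and restricted to distinct labels). -/
def adjC (L : ℕ → ℕ → Bool → Bool) : Lc → Lc → Bool
  | Sum.inl a, Sum.inl b => decide (a.1 = b.1)
  | Sum.inl a, Sum.inr q => (decide (a.1 = q.2.1) && decide (a.2 = q.2.2)) || L q.1 a.1 a.2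
  | Sum.inr _, Sum.inl _ => false
  | Sum.inr p, Sum.inr q => decide (p.1 ≠ q.1) || decide (p.2.1 = q.2.1)

/-- The valid labels. -/
def ValidC (n m : ℕ) (L : ℕ → ℕ → Bool → Bool) : Lc → Prop
  | Sum.inl a => a.1 < n
  | Sum.inr q => q.1 < m ∧ ((q.2.1 < n ∧ L q.1 q.2.1 true = false ∧ L q.1 q.2.1 false = false) ∨
      (q.2.1 = n ∧ q.2.2 = false))

/-- Adjacency of labels as a proposition. -/
def AdjP (L : ℕ → ℕ → Bool → Bool) (x y : Lc) : Prop :=
  x ≠ y ∧ (adjC L x y = true ∨ adjC L y x = true)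

theorem adjP_ll (L : ℕ → ℕ → Bool → Bool) (i j : ℕ) (a b : Bool) :
    AdjP L (Sum.inl (i, a)) (Sum.inl (j, b)) ↔ i = j ∧ a ≠ b := by
  simp only [AdjP, adjC, decide_eq_true_eq, ne_eq, Sum.inl.injEq, Prod.mk.injEq, not_and]
  constructor
  · rintro ⟨h1, h2 | h2⟩
    · exact ⟨h2, h1 h2⟩
    · exact ⟨h2.symm, h1 h2.symm⟩
  · rintro ⟨rfl, h⟩
    exact ⟨fun _ => h, Or.inl rfl⟩

theorem adjP_lr (L : ℕ → ℕ → Bool → Bool) (i k j : ℕ) (a b : Bool) :
    AdjP L (Sum.inl (i, a)) (Sum.inr (k, j, b)) ↔ (i = j ∧ a = b) ∨ L k i a = true := by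
  simp [AdjP, adjC]

theorem adjP_rl (L : ℕ → ℕ → Bool → Bool) (i k j : ℕ) (a b : Bool) :
    AdjP L (Sum.inr (k, j, b)) (Sum.inl (i, a)) ↔ (i = j ∧ a = b) ∨ L k i a = true := by
  simp [AdjP, adjC]

theorem adjP_rr (L : ℕ → ℕ → Bool → Bool) (k l i j : ℕ) (a b : Bool) :
    AdjP L (Sum.inr (k, i, a)) (Sum.inr (l, j, b)) ↔ k ≠ l ∨ (i = j ∧ a ≠ b) := by
  simp only [AdjP, adjC, decide_eq_true_eq, ne_eq, Sum.inr.injEq, Prod.mk.injEq, not_and,
    Bool.or_eq_true]
  constructor
  · rintro ⟨h1, (h2 | h2) | (h2 | h2)⟩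
    · exact Or.inl h2
    · by_cases hkl : k = l
      · exact Or.inr ⟨h2, h1 hkl h2⟩
      · exact Or.inl hkl
    · exact Or.inl (fun h => h2 h.symm)
    · by_cases hkl : k = l
      · exact Or.inr ⟨h2.symm, h1 hkl h2.symm⟩
      · exact Or.inl hkl
  · rintro (h | ⟨rfl, h⟩)
    · exact ⟨fun h' => absurd h' h, Or.inl (Or.inl h)⟩
    · exact ⟨fun _ _ => h, Or.inl (Or.inr rfl)⟩

theorem AdjP.symm {L : ℕ → ℕ → Bool → Bool} {x y : Lc} (h : AdjP L x y) : AdjP L y x :=
  ⟨h.1.symm, h.2.symm⟩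

section Sets

variable {n m : ℕ} {L : ℕ → ℕ → Bool → Bool} {vs : List Lc}
  (hvs : ∀ x, x ∈ vs ↔ ValidC n m L x)

theorem adj_iff (x y : {x // x ∈ vs}) :
    (labGraph vs (adjC L)).Adj x y ↔ AdjP L x.1 y.1 := by
  unfold labGraph AdjP
  simp only [ne_eq, Subtype.ext_iff]

/-- A maximal stable set as a set of labels. -/
structure MS (n m : ℕ) (L : ℕ → ℕ → Bool → Bool) (S : Set Lc) : Prop where
  valid : ∀ x ∈ S, ValidC n m L x
  indep : ∀ x ∈ S, ∀ y ∈ S, ¬ AdjP L x y
  dom : ∀ x, ValidC n m L x → x ∉ S → ∃ y ∈ S, AdjP L y x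

/-- A maximal clique as a set of labels. -/
structure MC (n m : ℕ) (L : ℕ → ℕ → Bool → Bool) (C : Set Lc) : Prop where
  valid : ∀ x ∈ C, ValidC n m L x
  clique : ∀ x ∈ C, ∀ y ∈ C, x ≠ y → AdjP L x y
  dom : ∀ x, ValidC n m L x → x ∉ C → ∃ y ∈ C, y ≠ x ∧ ¬ AdjP L y x

include hvs in
theorem ms_of_maximal {S : Set {x // x ∈ vs}}
    (hS : Maximal (labGraph vs (adjC L)).IsIndepSet S) : MS n m L (Subtype.val '' S) := by
  refine ⟨?_, ?_, ?_⟩
  · rintro _ ⟨x, _, rfl⟩
    exact (hvs _).1 x.2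
  · rintro _ ⟨x, hx, rfl⟩ _ ⟨y, hy, rfl⟩ h
    have h' := (adj_iff x y).2 h
    exact hS.1 hx hy h'.ne h'
  · intro x hx hxS
    have hxS' : (⟨x, (hvs x).2 hx⟩ : {x // x ∈ vs}) ∉ S := fun h => hxS ⟨_, h, rfl⟩
    by_contra hcon
    push Not at hcon
    apply hxS'
    refine hS.2 (y := insert ⟨x, (hvs x).2 hx⟩ S) ?_ (Set.subset_insert _ _)
      (Set.mem_insert _ _)
    intro a ha b hb hab hadj
    rw [adj_iff] at hadj
    rcases ha with rfl | ha
    · rcases hb with rfl | hb
      · exact hab rfl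
      · exact hcon b.1 ⟨b, hb, rfl⟩ hadj.symm
    · rcases hb with rfl | hb
      · exact hcon a.1 ⟨a, ha, rfl⟩ hadj
      · exact hS.1 ha hb hab ((adj_iff _ _).2 hadj)

include hvs in
theorem mc_of_maximal {C : Set {x // x ∈ vs}}
    (hC : Maximal (labGraph vs (adjC L)).IsClique C) : MC n m L (Subtype.val '' C) := by
  refine ⟨?_, ?_, ?_⟩
  · rintro _ ⟨x, _, rfl⟩
    exact (hvs _).1 x.2
  · rintro _ ⟨x, hx, rfl⟩ _ ⟨y, hy, rfl⟩ h
    exact (adj_iff x y).1 (hC.1 hx hy (fun h' => h (by rw [h'])))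
  · intro x hx hxC
    have hxC' : (⟨x, (hvs x).2 hx⟩ : {x // x ∈ vs}) ∉ C := fun h => hxC ⟨_, h, rfl⟩
    by_contra hcon
    push Not at hcon
    apply hxC'
    refine hC.2 (y := insert ⟨x, (hvs x).2 hx⟩ C) ?_ (Set.subset_insert _ _)
      (Set.mem_insert _ _)
    intro a ha b hb hab
    rw [adj_iff]
    rcases ha with rfl | ha
    · rcases hb with rfl | hb
      · exact absurd rfl hab
      · exact (hcon b.1 ⟨b, hb, rfl⟩ (fun h => hab (Subtype.ext h.symm))).symm
    · rcases hb with rfl | hb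
      · exact hcon a.1 ⟨a, ha, rfl⟩ (fun h => hab (Subtype.ext h))
      · exact (adj_iff _ _).1 (hC.1 ha hb hab)

end Sets

section Unsat

variable {n m : ℕ} {L : ℕ → ℕ → Bool → Bool} {S C : Set Lc}

/-- A maximal stable set contains a clause vertex, if the formula is unsatisfiable. -/
theorem MS.exists_clause (hS : MS n m L S)
    (hun : ∀ τ : ℕ → Bool, ∃ k < m, ∀ i < n, L k i (τ i) = false) :
    ∃ k < m, Sum.inr (k, n, false) ∈ S := by
  classical
  by_cases hr : ∃ k j b, (Sum.inr (k, j, b) : Lc) ∈ S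
  · obtain ⟨k, j, b, h⟩ := hr
    have hk : k < m := (hS.valid _ h).1
    refine ⟨k, hk, ?_⟩
    by_contra hc
    obtain ⟨y, hy, hadj⟩ := hS.dom (Sum.inr (k, n, false)) ⟨hk, Or.inr ⟨rfl, rfl⟩⟩ hc
    rcases y with ⟨i, a⟩ | ⟨l, i, a⟩
    · rw [adjP_lr] at hadj
      have hi : i < n := hS.valid _ hy
      have hL : L k i a = true := by
        rcases hadj with ⟨h1, _⟩ | h1
        · omega
        · exact h1
      exact hS.indep _ hy _ h ((adjP_lr _ _ _ _ _ _).2 (Or.inr hL))
    · rw [adjP_rr] at hadj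
      rcases hadj with hlk | ⟨rfl, ha⟩
      · exact hS.indep _ hy _ h ((adjP_rr _ _ _ _ _ _ _).2 (Or.inl hlk))
      · have hv := hS.valid _ hy
        rcases hv.2 with hv | hv
        · simp only at hv; omega
        · exact ha hv.2
  · push Not at hr
    have hlit : ∀ y ∈ S, ∃ i a, y = (Sum.inl (i, a) : Lc) := by
      rintro (⟨i, a⟩ | ⟨k, i, a⟩) hy
      · exact ⟨i, a, rfl⟩
      · exact absurd hy (hr k i a)
    let τ : ℕ → Bool := fun i => decide ((Sum.inl (i, true) : Lc) ∈ S)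
    obtain ⟨k, hk, hkun⟩ := hun τ
    refine ⟨k, hk, ?_⟩
    by_contra hc
    obtain ⟨y, hy, hadj⟩ := hS.dom (Sum.inr (k, n, false)) ⟨hk, Or.inr ⟨rfl, rfl⟩⟩ hc
    obtain ⟨i, a, rfl⟩ := hlit y hy
    have hi : i < n := hS.valid _ hy
    rw [adjP_lr] at hadj
    have hL : L k i a = true := by
      rcases hadj with ⟨h1, _⟩ | h1
      · omega
      · exact h1
    have ha : a = τ i := by
      cases a with
      | true => simp [τ, hy]
      | false =>
        have : (Sum.inl (i, true) : Lc) ∉ S := fun h' =>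
          hS.indep _ h' _ hy ((adjP_ll _ _ _ _ _).2 ⟨rfl, by simp⟩)
        simp [τ, this]
    rw [ha, hkun i hi] at hL
    exact absurd hL (by simp)

variable (hcons : ∀ k i a, L k i a = true → L k i (!a) = false)

theorem MS.clause_facts (hS : MS n m L S) {k : ℕ} (hck : Sum.inr (k, n, false) ∈ S) :
    (∀ i a, L k i a = true → (Sum.inl (i, a) : Lc) ∉ S) ∧
    (∀ l j b, (Sum.inr (l, j, b) : Lc) ∈ S → l = k) := by
  refine ⟨?_, ?_⟩
  · intro i a h h'
    exact hS.indep _ h' _ hck ((adjP_lr _ _ _ _ _ _).2 (Or.inr h))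
  · intro l j b h
    by_contra hne
    exact hS.indep _ h _ hck ((adjP_rr _ _ _ _ _ _ _).2 (Or.inl hne))

include hcons in
theorem MS.neg_mem (hS : MS n m L S) {k : ℕ} (hck : Sum.inr (k, n, false) ∈ S) {i : ℕ} {a : Bool}
    (hi : i < n) (h : L k i a = true) : (Sum.inl (i, !a) : Lc) ∈ S := by
  obtain ⟨h1, h2⟩ := hS.clause_facts hck
  by_contra hc
  obtain ⟨y, hy, hadj⟩ := hS.dom (Sum.inl (i, !a)) hi hc
  rcases y with ⟨j, b⟩ | ⟨l, j, b⟩
  · rw [adjP_ll] at hadj
    obtain ⟨rfl, hb⟩ := hadj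
    have : b = a := by cases a <;> cases b <;> simp at hb ⊢
    subst this
    exact h1 _ _ h hy
  · have := h2 _ _ _ hy
    subst this
    rw [adjP_rl] at hadj
    rcases hadj with ⟨rfl, rfl⟩ | hadj
    · rcases (hS.valid _ hy).2 with hv | hv
      · simp only at hv
        cases a
        · rw [h] at hv; simp at hv
        · rw [h] at hv; simp at hv
      · simp only at hv; omega
    · rw [hcons _ _ _ h] at hadj
      exact absurd hadj (by simp)

theorem MS.free_mem (hS : MS n m L S) {k : ℕ} (hck : Sum.inr (k, n, false) ∈ S) {i : ℕ} {a : Bool}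
    (hi : i < n) (h : L k i a = false) (h' : L k i (!a) = false)
    (hn : (Sum.inl (i, a) : Lc) ∉ S) :
    (Sum.inl (i, !a) : Lc) ∈ S ∧ (Sum.inr (k, i, a) : Lc) ∈ S := by
  obtain ⟨h1, h2⟩ := hS.clause_facts hck
  have hk : k < m := (hS.valid _ hck).1
  have hboth : L k i true = false ∧ L k i false = false := by
    cases a
    · exact ⟨h', h⟩
    · exact ⟨h, h'⟩
  have hva : ∀ b, ValidC n m L (Sum.inr (k, i, b)) := fun b => ⟨hk, Or.inl ⟨hi, hboth⟩⟩
  -- neighbours of the two literals and of the two copies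
  have nbl : ∀ b y, y ∈ S → AdjP L y (Sum.inl (i, b)) →
      y = Sum.inl (i, !b) ∨ y = Sum.inr (k, i, b) := by
    intro b y hy hadj
    rcases y with ⟨j, c⟩ | ⟨l, j, c⟩
    · rw [adjP_ll] at hadj
      obtain ⟨rfl, hb⟩ := hadj
      left
      cases b <;> cases c <;> simp at hb ⊢
    · have := h2 _ _ _ hy
      subst this
      rw [adjP_rl] at hadj
      rcases hadj with ⟨rfl, rfl⟩ | hadj
      · exact Or.inr rfl
      · exfalso
        cases b
        · rw [hboth.2] at hadj; exact absurd hadj (by simp)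
        · rw [hboth.1] at hadj; exact absurd hadj (by simp)
  have nbr : ∀ b y, y ∈ S → AdjP L y (Sum.inr (k, i, b)) →
      y = Sum.inl (i, b) ∨ y = Sum.inr (k, i, !b) := by
    intro b y hy hadj
    rcases y with ⟨j, c⟩ | ⟨l, j, c⟩
    · rw [adjP_lr] at hadj
      rcases hadj with ⟨rfl, rfl⟩ | hadj
      · exact Or.inl rfl
      · exact absurd hy (h1 _ _ hadj)
    · have := h2 _ _ _ hy
      subst this
      rw [adjP_rr] at hadj
      rcases hadj with hadj | ⟨rfl, hb⟩
      · exact absurd rfl hadj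
      · right
        cases b <;> cases c <;> simp at hb ⊢
  have hnot : ¬ ((Sum.inr (k, i, a) : Lc) ∈ S ∧ (Sum.inr (k, i, !a) : Lc) ∈ S) := by
    rintro ⟨g1, g2⟩
    exact hS.indep _ g1 _ g2 ((adjP_rr _ _ _ _ _ _ _).2 (Or.inr ⟨rfl, by cases a <;> simp⟩))
  obtain ⟨y, hy, hadj⟩ := hS.dom (Sum.inl (i, a)) hi hn
  rcases nbl a y hy hadj with rfl | rfl
  · refine ⟨hy, ?_⟩
    by_contra hc
    obtain ⟨z, hz, hadj2⟩ := hS.dom _ (hva a) hc
    rcases nbr a z hz hadj2 with rfl | rfl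
    · exact hn hz
    · exact hS.indep _ hy _ hz ((adjP_lr _ _ _ _ _ _).2 (Or.inl ⟨rfl, rfl⟩))
  · refine ⟨?_, hy⟩
    by_contra hc
    obtain ⟨z, hz, hadj2⟩ := hS.dom (Sum.inl (i, !a)) hi hc
    rcases nbl (!a) z hz hadj2 with rfl | rfl
    · rw [Bool.not_not] at hz
      exact hn hz
    · exact hnot ⟨hy, hz⟩

include hcons in
/-- For an unsatisfiable formula, every maximal clique meets every maximal stable set. -/
theorem MS.inter (hS : MS n m L S) (hC : MC n m L C)
    (hun : ∀ τ : ℕ → Bool, ∃ k < m, ∀ i < n, L k i (τ i) = false) : (C ∩ S).Nonempty := by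
  by_contra hdis
  have hd : ∀ x, x ∈ C → x ∉ S := fun x hx hx' => hdis ⟨x, hx, hx'⟩
  obtain ⟨k, hk, hck⟩ := hS.exists_clause hun
  obtain ⟨h1, h2⟩ := hS.clause_facts hck
  -- literals of the clique are in the clause
  have hB : ∀ i a, (Sum.inl (i, a) : Lc) ∈ C → L k i a = true := by
    intro i a hia
    by_contra hL
    rw [Bool.not_eq_true] at hL
    have hi : i < n := hC.valid _ hia
    have hnS := hd _ hia
    have hL' : L k i (!a) = false := by
      by_contra h
      rw [Bool.not_eq_false] at h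
      have := hS.neg_mem hcons hck hi h
      rw [Bool.not_not] at this
      exact hnS this
    obtain ⟨g1, g2⟩ := hS.free_mem hck hi hL hL' hnS
    have hnC : (Sum.inr (k, i, a) : Lc) ∉ C := fun h => hd _ h g2
    obtain ⟨c, hc, hne, hna⟩ := hC.dom _ (hS.valid _ g2) hnC
    rcases c with ⟨j, b⟩ | ⟨l, j, b⟩
    · rw [adjP_lr] at hna
      push Not at hna
      by_cases heq : (Sum.inl (j, b) : Lc) = Sum.inl (i, a)
      · simp only [Sum.inl.injEq, Prod.mk.injEq] at heq
        exact hna.1 heq.1 heq.2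
      · have := hC.clique _ hc _ hia heq
        rw [adjP_ll] at this
        obtain ⟨rfl, hb⟩ := this
        have hb' : b = !a := by cases a <;> cases b <;> simp at hb ⊢
        subst hb'
        exact hd _ hc g1
    · rw [adjP_rr] at hna
      push Not at hna
      obtain ⟨rfl, hna⟩ := hna
      have := hC.clique _ hc _ hia (by simp)
      rw [adjP_rl] at this
      rcases this with ⟨rfl, rfl⟩ | this
      · exact hne rfl
      · rw [hL] at this; exact absurd this (by simp)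
  have hcC : (Sum.inr (k, n, false) : Lc) ∉ C := fun h => hd _ h hck
  obtain ⟨c, hc, hne, hna⟩ := hC.dom _ (hS.valid _ hck) hcC
  rcases c with ⟨j, b⟩ | ⟨l, j, b⟩
  · rw [adjP_lr] at hna
    exact hna (Or.inr (hB _ _ hc))
  · rw [adjP_rr] at hna
    push Not at hna
    obtain ⟨rfl, _⟩ := hna
    have hv : j < n ∧ L l j true = false ∧ L l j false = false := by
      rcases (hC.valid _ hc).2 with hv | hv
      · exact hv
      · exfalso
        obtain ⟨rfl, rfl⟩ := hv
        exact hne rfl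
    have hbS := hd _ hc
    -- the opposite copy is in `S`
    have hopp : (Sum.inr (l, j, !b) : Lc) ∈ S := by
      have hl : ∀ b', L l j b' = false := by
        intro b'
        cases b'
        · exact hv.2.2
        · exact hv.2.1
      by_cases hin : (Sum.inl (j, b) : Lc) ∈ S
      · have hnin : (Sum.inl (j, !b) : Lc) ∉ S := fun h =>
          hS.indep _ hin _ h ((adjP_ll _ _ _ _ _).2 ⟨rfl, by cases b <;> simp⟩)
        exact (hS.free_mem hck hv.1 (hl _) (hl _) hnin).2
      · exact absurd (hS.free_mem hck hv.1 (hl _) (hl _) hin).2 hbS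
    have hnC : (Sum.inr (l, j, !b) : Lc) ∉ C := fun h => hd _ h hopp
    obtain ⟨c', hc', hne', hna'⟩ := hC.dom _ (hS.valid _ hopp) hnC
    rcases c' with ⟨i, a⟩ | ⟨l', i, a⟩
    · rw [adjP_lr] at hna'
      exact hna' (Or.inr (hB _ _ hc'))
    · rw [adjP_rr] at hna'
      push Not at hna'
      obtain ⟨rfl, hna'⟩ := hna'
      by_cases heq : (Sum.inr (l', i, a) : Lc) = Sum.inr (l', j, b)
      · simp only [Sum.inr.injEq, Prod.mk.injEq, true_and] at heq
        obtain ⟨rfl, rfl⟩ := heq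
        have := hna' rfl
        cases a <;> simp at this
      · have := hC.clique _ hc' _ hc heq
        rw [adjP_rr] at this
        rcases this with this | ⟨rfl, hab⟩
        · exact this rfl
        · apply hne'
          have : a = !b := by cases a <;> cases b <;> simp at hab ⊢
          rw [this]

end Unsat

/-- For an unsatisfiable formula, the graph is CIS. -/
theorem isCIS_of_unsat {n m : ℕ} {L : ℕ → ℕ → Bool → Bool} {vs : List Lc}
    (hvs : ∀ x, x ∈ vs ↔ ValidC n m L x)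
    (hcons : ∀ k i a, L k i a = true → L k i (!a) = false)
    (hun : ∀ τ : ℕ → Bool, ∃ k < m, ∀ i < n, L k i (τ i) = false) :
    IsCIS (labGraph vs (adjC L)) := by
  intro C S hC hS
  obtain ⟨x, ⟨a, ha, rfl⟩, b, hb, hab⟩ :=
    (ms_of_maximal hvs hS).inter hcons (mc_of_maximal hvs hC) hun
  have := Subtype.ext hab
  subst this
  exact ⟨b, ha, hb⟩

/-- For a satisfiable formula without literal common to all clauses, the graph is not CIS. -/
theorem not_isCIS_of_sat {n m : ℕ} {L : ℕ → ℕ → Bool → Bool} {vs : List Lc}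
    (hvs : ∀ x, x ∈ vs ↔ ValidC n m L x)
    (hno : ∀ i a, ∃ k < m, L k i a = false)
    (τ : ℕ → Bool) (hτ : ∀ k < m, ∃ i < n, L k i (τ i) = true) :
    ¬ IsCIS (labGraph vs (adjC L)) := by
  intro h
  have hS : Maximal (labGraph vs (adjC L)).IsIndepSet
      {x : {x // x ∈ vs} | ∃ i, x.1 = Sum.inl (i, τ i)} := by
    refine ⟨?_, ?_⟩
    · rintro ⟨_, hx⟩ ⟨i, rfl⟩ ⟨_, hy⟩ ⟨j, rfl⟩ hne hadj
      rw [adj_iff] at hadj
      simp only at hadj
      rw [adjP_ll] at hadj
      obtain ⟨rfl, hh⟩ := hadj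
      exact hh rfl
    · rintro T hT hST ⟨x, hx⟩ hxT
      have hval := (hvs _).1 hx
      rcases x with ⟨i, a⟩ | ⟨k, j, b⟩
      · by_cases ha : a = τ i
        · subst ha
          exact ⟨i, rfl⟩
        · exfalso
          have hi : i < n := hval
          have hm : (Sum.inl (i, τ i) : Lc) ∈ vs := (hvs _).2 hi
          have h1 : (⟨_, hm⟩ : {x // x ∈ vs}) ∈ T := hST ⟨i, rfl⟩
          have hadj : (labGraph vs (adjC L)).Adj ⟨_, hm⟩ ⟨_, hx⟩ :=
            (adj_iff _ _).2 ((adjP_ll _ _ _ _ _).2 ⟨rfl, fun h => ha h.symm⟩)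
          exact hT h1 hxT hadj.ne hadj
      · exfalso
        obtain ⟨i, hi, hL⟩ := hτ k hval.1
        have hm : (Sum.inl (i, τ i) : Lc) ∈ vs := (hvs _).2 hi
        have h1 : (⟨_, hm⟩ : {x // x ∈ vs}) ∈ T := hST ⟨i, rfl⟩
        have hadj : (labGraph vs (adjC L)).Adj ⟨_, hm⟩ ⟨_, hx⟩ :=
          (adj_iff _ _).2 ((adjP_lr _ _ _ _ _ _).2 (Or.inr hL))
        exact hT h1 hxT hadj.ne hadj
  have hC : Maximal (labGraph vs (adjC L)).IsClique
      {x : {x // x ∈ vs} | ∃ k, x.1 = Sum.inr (k, n, false)} := by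
    refine ⟨?_, ?_⟩
    · rintro ⟨_, hx⟩ ⟨i, rfl⟩ ⟨_, hy⟩ ⟨j, rfl⟩ hne
      rw [adj_iff]
      simp only
      rw [adjP_rr]
      left
      rintro rfl
      exact hne rfl
    · rintro T hT hST ⟨x, hx⟩ hxT
      have hval := (hvs _).1 hx
      rcases x with ⟨i, a⟩ | ⟨k, j, b⟩
      · exfalso
        have hi : i < n := hval
        obtain ⟨k, hk, hL⟩ := hno i a
        have hm : (Sum.inr (k, n, false) : Lc) ∈ vs := (hvs _).2 ⟨hk, Or.inr ⟨rfl, rfl⟩⟩
        have h1 : (⟨_, hm⟩ : {x // x ∈ vs}) ∈ T := hST ⟨k, rfl⟩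
        have hadj := hT hxT h1 (by intro h; exact absurd (congrArg Subtype.val h) (by simp))
        rw [adj_iff] at hadj
        simp only at hadj
        rw [adjP_lr] at hadj
        rcases hadj with hadj | hadj
        · omega
        · rw [hL] at hadj; exact absurd hadj (by simp)
      · by_cases hj : (j, b) = (n, false)
        · simp only [Prod.mk.injEq] at hj
          obtain ⟨rfl, rfl⟩ := hj
          exact ⟨k, rfl⟩
        · exfalso
          have hm : (Sum.inr (k, n, false) : Lc) ∈ vs := (hvs _).2 ⟨hval.1, Or.inr ⟨rfl, rfl⟩⟩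
          have h1 : (⟨_, hm⟩ : {x // x ∈ vs}) ∈ T := hST ⟨k, rfl⟩
          have hadj := hT hxT h1 (by
            intro h
            have := congrArg Subtype.val h
            simp only [Sum.inr.injEq, Prod.mk.injEq, true_and] at this
            exact hj (by rw [this.1, this.2]))
          rw [adj_iff] at hadj
          simp only at hadj
          rw [adjP_rr] at hadj
          rcases hadj with hadj | ⟨rfl, hb⟩
          · exact hadj rfl
          · rcases hval.2 with hv | hv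
            · simp only at hv; omega
            · exact hb hv.2
  obtain ⟨⟨x, hx⟩, ⟨k, h1⟩, ⟨i, h2⟩⟩ := h _ _ hC hS
  simp only at h1 h2
  rw [h1] at h2
  exact absurd h2 (by simp)

end Pool.Agent.W950
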