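import Pool.Agent.W950.CIS1
import Pool.Agent.H609R2.EqPoly

/-!
# CIS graphs: the reduction, and membership in coNP
-/

set_option autoImplicit false

namespace Pool.Agent.W950

open Pool.Agent.H622R2 (nodup_flatMap_of mat matGraph labGraph matIso mat_poly entry)
open Pool.Agent.H609R2 (C3 satL satL_iff satL_none satL_consistent satL_dummy SAT3_iff satL_poly)
open Pool.Agent.NPC

/-- The literals of the clauses of `φ`, followed by one unit clause with a new variable. -/
def litD (φ : List C3) (k i : ℕ) (a : Bool) : Bool :=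
  satL φ k i a || (decide (k = φ.length) && (decide (i = 3 * φ.length) && a))

theorem litD_lt {φ : List C3} {k i : ℕ} {a : Bool} (hk : k < φ.length) :
    litD φ k i a = satL φ k i a := by
  simp [litD, hk.ne]

theorem litD_last {φ : List C3} {i : ℕ} {a : Bool} :
    litD φ φ.length i a = (decide (i = 3 * φ.length) && a) := by
  simp [litD, satL_none le_rfl]

theorem litD_consistent {φ : List C3} (hφ : Distinct3 φ) (k i : ℕ) (a : Bool)
    (h : litD φ k i a = true) : litD φ k i (!a) = false := by
  have key : ¬ (litD φ k i true = true ∧ litD φ k i false = true) := by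
    rintro ⟨h1, h2⟩
    by_cases hk : k < φ.length
    · rw [litD_lt hk] at h1 h2
      rw [satL_consistent hφ k i h1] at h2
      exact absurd h2 (by simp)
    · have h3 : satL φ k i false = false := satL_none (by omega) _ _
      simp [litD, h3] at h2
  cases a
  · by_contra hc
    simp only [Bool.not_false, Bool.not_eq_false] at hc
    exact key ⟨hc, h⟩
  · by_contra hc
    simp only [Bool.not_true, Bool.not_eq_false] at hc
    exact key ⟨h, hc⟩

/-- The vertices. -/
def labC (φ : List C3) : List Lc :=
  (List.range (3 * φ.length + 1)).flatMap (fun i =>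
    [(Sum.inl (i, false) : Lc), Sum.inl (i, true)]) ++
  (List.range (φ.length + 1)).flatMap (fun k =>
    (Sum.inr (k, 3 * φ.length + 1, false) : Lc) ::
      ((List.range (3 * φ.length + 1)).filter
        (fun i => !litD φ k i true && !litD φ k i false)).flatMap (fun i =>
          [(Sum.inr (k, i, false) : Lc), Sum.inr (k, i, true)]))

theorem mem_labC (φ : List C3) (x : Lc) :
    x ∈ labC φ ↔ ValidC (3 * φ.length + 1) (φ.length + 1) (litD φ) x := by
  rcases x with ⟨i, a⟩ | ⟨k, i, a⟩
  · simp only [labC, List.mem_append, List.mem_flatMap, List.mem_range, List.mem_cons,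
      Sum.inl.injEq, Prod.mk.injEq, List.not_mem_nil, or_false, reduceCtorEq,
      and_false, exists_false, ValidC]
    constructor
    · rintro ⟨j, hj, ⟨rfl, _⟩ | ⟨rfl, _⟩⟩ <;> exact hj
    · intro h
      refine ⟨i, h, ?_⟩
      cases a <;> simp
  · simp only [labC, List.mem_append, List.mem_flatMap, List.mem_range, List.mem_cons,
      reduceCtorEq, List.not_mem_nil, or_false, List.mem_filter,
      and_false, exists_false, false_or, ValidC, Sum.inr.injEq, Prod.mk.injEq, or_self,
      Bool.and_eq_true, Bool.not_eq_true']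
    constructor
    · rintro ⟨l, hl, ⟨rfl, rfl, rfl⟩ | ⟨j, ⟨hj, h1, h2⟩, ⟨rfl, rfl, rfl⟩ | ⟨rfl, rfl, rfl⟩⟩⟩
      · exact ⟨hl, Or.inr ⟨rfl, rfl⟩⟩
      · exact ⟨hl, Or.inl ⟨hj, h1, h2⟩⟩
      · exact ⟨hl, Or.inl ⟨hj, h1, h2⟩⟩
    · rintro ⟨hk, ⟨hi, h1, h2⟩ | ⟨rfl, rfl⟩⟩
      · refine ⟨k, hk, Or.inr ⟨i, ⟨hi, h1, h2⟩, ?_⟩⟩
        cases a <;> simp
      · exact ⟨k, hk, Or.inl ⟨rfl, rfl, rfl⟩⟩

theorem labC_nodup (φ : List C3) : (labC φ).Nodup := by
  unfold labC
  rw [List.nodup_append]
  refine ⟨?_, ?_, ?_⟩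
  · refine nodup_flatMap_of (fun x : Lc => match x with
        | Sum.inl a => a.1
        | Sum.inr p => p.1) List.nodup_range (fun i _ => by simp) ?_
    intro i _ b hb
    simp only [List.mem_cons, List.not_mem_nil, or_false] at hb
    rcases hb with rfl | rfl <;> rfl
  · refine nodup_flatMap_of (fun x : Lc => match x with
        | Sum.inl a => a.1
        | Sum.inr p => p.1) List.nodup_range (fun k _ => ?_) ?_
    · rw [List.nodup_cons]
      refine ⟨?_, ?_⟩
      · simp only [List.mem_flatMap, List.mem_filter, List.mem_range, List.mem_cons,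
          Sum.inr.injEq, Prod.mk.injEq, List.not_mem_nil, or_false, not_exists, not_and, not_or]
        intro i hi
        omega
      · refine nodup_flatMap_of (fun x : Lc => match x with
          | Sum.inl a => a.1
          | Sum.inr p => p.2.1) (List.Nodup.filter _ List.nodup_range) (fun i _ => by simp) ?_
        intro i _ b hb
        simp only [List.mem_cons, List.not_mem_nil, or_false] at hb
        rcases hb with rfl | rfl <;> rfl
    · intro k _ x hx
      simp only [List.mem_flatMap, List.mem_cons, List.not_mem_nil, or_false] at hx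
      rcases hx with rfl | ⟨i, _, rfl | rfl⟩ <;> rfl
  · intro x hx y hy hxy
    subst hxy
    simp only [List.mem_flatMap, List.mem_cons, List.not_mem_nil, or_false] at hx hy
    obtain ⟨i, _, h⟩ := hx
    obtain ⟨k, _, h' | ⟨j, _, h' | h'⟩⟩ := hy <;> rcases h with h | h <;>
      exact absurd (h.symm.trans h') (by simp)

/-- The reduction: the adjacency matrix of the graph. -/
def cisRed (φ : List C3) : List (List Bool) := mat (labC φ) (adjC (litD φ))

theorem cis_iff_litD {φ : List C3} (hφ : Bounded3 φ) : SAT3 φ ↔ ∃ τ : ℕ → Bool,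
    ∀ k < φ.length + 1, ∃ i < 3 * φ.length + 1, litD φ k i (τ i) = true := by
  rw [SAT3_iff hφ]
  constructor
  · rintro ⟨τ, hτ⟩
    refine ⟨fun i => if i = 3 * φ.length then true else τ i, ?_⟩
    intro k hk
    rcases Nat.lt_or_ge k φ.length with hk' | hk'
    · obtain ⟨i, hi, h⟩ := hτ k hk'
      refine ⟨i, hi, ?_⟩
      rw [litD_lt hk']
      by_cases hi' : i = 3 * φ.length
      · subst hi'
        rw [satL_dummy hφ] at h
        exact absurd h (by simp)
      · simpa [hi'] using h
    · have : k = φ.length := by omega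
      subst this
      refine ⟨3 * φ.length, by omega, ?_⟩
      rw [litD_last]
      simp
  · rintro ⟨τ, hτ⟩
    refine ⟨τ, fun k hk => ?_⟩
    obtain ⟨i, hi, h⟩ := hτ k (by omega)
    exact ⟨i, hi, by rwa [litD_lt hk] at h⟩

/-- The graph of a formula is CIS exactly when the formula is unsatisfiable. -/
theorem cisRed_correct {φ : List C3} (h1 : Distinct3 φ) (h2 : Bounded3 φ) (h3 : φ ≠ []) :
    SAT3 φ ↔ ¬ IsCIS (matGraph (cisRed φ)) := by
  have e := matIso (labC φ) (adjC (litD φ)) (labC_nodup φ)
  have hpos : 0 < φ.length := List.length_pos_iff.2 h3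
  rw [cis_iff_litD h2]
  constructor
  · rintro ⟨τ, hτ⟩ h
    refine not_isCIS_of_sat (mem_labC φ) ?_ τ hτ (IsCIS.of_iso e.symm h)
    intro i a
    by_cases hi : i = 3 * φ.length
    · refine ⟨0, by omega, ?_⟩
      rw [litD_lt hpos, hi, satL_dummy h2]
    · refine ⟨φ.length, by omega, ?_⟩
      rw [litD_last]
      simp [hi]
  · intro h
    by_contra hun
    push Not at hun
    refine h (IsCIS.of_iso e (isCIS_of_unsat (mem_labC φ) (litD_consistent h1) ?_))
    intro τ
    obtain ⟨k, hk, hk2⟩ := hun τ
    exact ⟨k, hk, fun i hi => by simpa using hk2 i hi⟩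

/-! ### Polynomial time -/

section PolyTime

open Poly

theorem litD_poly {α : Type} [TEnc α] {f : α → List C3} {k i : α → ℕ} {a : α → Bool}
    (hf : Poly f) (hk : Poly k) (hi : Poly i) (ha : Poly a) :
    Poly (fun x => litD (f x) (k x) (i x) (a x)) := by
  have h3 : Poly (fun x => 3 * (f x).length) :=
    ((UPoly.const 3).mul (UPoly.length hf)).toPoly
  have h1 : Poly (fun x => (f x).length) := (UPoly.length hf).toPoly
  exact or (satL_poly hf hk hi ha) (and (decide_eq hk h1) (and (decide_eq hi h3) ha))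

theorem labC_poly : Poly labC := by
  have hr : Poly (fun φ : List C3 => List.range (3 * φ.length + 1)) :=
    (((UPoly.const 3).mul (UPoly.length Poly.id)).add (UPoly.const 1)).range
  have hr2 : Poly (fun φ : List C3 => List.range (φ.length + 1)) :=
    ((UPoly.length Poly.id).add (UPoly.const 1)).range
  have hn : Poly (fun φ : List C3 => 3 * φ.length + 1) :=
    (((UPoly.const 3).mul (UPoly.length Poly.id)).add (UPoly.const 1)).toPoly
  have h1 : Poly (fun φ : List C3 => (List.range (3 * φ.length + 1)).flatMap (fun i =>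
      [(Sum.inl (i, false) : Lc), Sum.inl (i, true)])) :=
    flatMap (F := fun (_ : List C3) i => [(Sum.inl (i, false) : Lc), Sum.inl (i, true)]) hr
      (by fun_prop)
  have h4 : Poly (fun p : List C3 × ℕ => (List.range (3 * p.1.length + 1)).filter
      (fun i => !litD p.1 p.2 i true && !litD p.1 p.2 i false)) :=
    filter (p := fun (p : List C3 × ℕ) i => !litD p.1 p.2 i true && !litD p.1 p.2 i false)
      (hr.comp (fst id))
      (and (not (litD_poly (fst (fst id)) (snd (fst id)) (snd id) (const _)))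
        (not (litD_poly (fst (fst id)) (snd (fst id)) (snd id) (const _))))
  have h3 : Poly (fun p : List C3 × ℕ => ((List.range (3 * p.1.length + 1)).filter
      (fun i => !litD p.1 p.2 i true && !litD p.1 p.2 i false)).flatMap (fun i =>
          [(Sum.inr (p.2, i, false) : Lc), Sum.inr (p.2, i, true)])) :=
    flatMap (F := fun (p : List C3 × ℕ) i =>
      [(Sum.inr (p.2, i, false) : Lc), Sum.inr (p.2, i, true)]) h4 (by fun_prop)
  have h5 : Poly (fun p : List C3 × ℕ =>
      (Sum.inr (p.2, 3 * p.1.length + 1, false) : Lc)) :=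
    inr (pair (snd id) (pair (hn.comp (fst id)) (const false)))
  exact append h1 (flatMap (F := fun (φ : List C3) k =>
    (Sum.inr (k, 3 * φ.length + 1, false) : Lc) ::
      ((List.range (3 * φ.length + 1)).filter
        (fun i => !litD φ k i true && !litD φ k i false)).flatMap (fun i =>
          [(Sum.inr (k, i, false) : Lc), Sum.inr (k, i, true)])) hr2 (cons h5 h3))

theorem adjC_poly : Poly (fun z : (List C3 × Lc) × Lc => adjC (litD z.1.1) z.1.2 z.2) := by
  have hLL : Poly (fun p : (((List C3 × Lc) × Lc) × (ℕ × Bool)) × (ℕ × Bool) =>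
      decide (p.1.2.1 = p.2.1)) := by fun_prop
  have hLR : Poly (fun p : (((List C3 × Lc) × Lc) × (ℕ × Bool)) × (ℕ × ℕ × Bool) =>
      (decide (p.1.2.1 = p.2.2.1) && decide (p.1.2.2 = p.2.2.2)) ||
        litD p.1.1.1.1 p.2.1 p.1.2.1 p.1.2.2) :=
    or (by fun_prop) (litD_poly (by fun_prop) (by fun_prop) (by fun_prop) (by fun_prop))
  have hRR : Poly (fun p : (((List C3 × Lc) × Lc) × (ℕ × ℕ × Bool)) × (ℕ × ℕ × Bool) =>
      decide (p.1.2.1 ≠ p.2.1) || decide (p.1.2.2.1 = p.2.2.1)) := by fun_prop
  have h1 := sumCases (o := fun p : ((List C3 × Lc) × Lc) × (ℕ × Bool) => p.1.2)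
    (g := fun p b => decide (p.2.1 = b.1))
    (h := fun p q => (decide (p.2.1 = q.2.1) && decide (p.2.2 = q.2.2)) ||
        litD p.1.1.1 q.1 p.2.1 p.2.2) (snd (fst id)) hLL hLR
  have h2 := sumCases (o := fun p : ((List C3 × Lc) × Lc) × (ℕ × ℕ × Bool) => p.1.2)
    (g := fun _ (_ : ℕ × Bool) => false)
    (h := fun p q => decide (p.2.1 ≠ q.1) || decide (p.2.2.1 = q.2.1)) (snd (fst id))
      (const false) hRR
  refine (sumCases (o := fun z : (List C3 × Lc) × Lc => z.1.2)
    (g := fun z a => match z.2 with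
      | Sum.inl b => decide (a.1 = b.1)
      | Sum.inr q => (decide (a.1 = q.2.1) && decide (a.2 = q.2.2)) || litD z.1.1 q.1 a.1 a.2)
    (h := fun z p => match z.2 with
      | Sum.inl _ => false
      | Sum.inr q => decide (p.1 ≠ q.1) || decide (p.2.1 = q.2.1))
    (snd (fst id)) (h1.congr ?_) (h2.congr ?_)).congr ?_
  · rintro ⟨⟨x, y⟩, a⟩
    rcases y with b | q <;> rfl
  · rintro ⟨⟨x, y⟩, a⟩
    rcases y with b | q <;> rfl
  rintro ⟨⟨φ, x⟩, y⟩
  rcases x with a | p <;> rcases y with b | q <;> rfl

theorem cisRed_poly : Poly cisRed :=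
  mat_poly (adj := fun φ u v => adjC (litD φ) u v) labC_poly adjC_poly

end PolyTime

/-- Not being CIS is hard. -/
theorem hardI_not_cis : HardI (fun M : List (List Bool) => ¬ IsCIS (matGraph M)) :=
  (hardPr_SAT3b.trans (Pr' := fun _ => True) cisRed_poly (fun _ _ => trivial)
    (fun _ h => cisRed_correct h.1 h.2.1 h.2.2)).toHardI

end Pool.Agent.W950
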