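import Pool.Agent.W950.CIS2
import Pool.Agent.H495R3.Tri

/-!
# Recognition of CIS graphs is in coNP
-/

set_option autoImplicit false

namespace Pool.Agent.W950

open Pool.Agent.H622R2 (matGraph entry)
open Pool.Agent.H495R3 (adjB adjB_iff adjB_poly sz_filter_le)
open Pool.Agent.NPC

/-- The verifier of certificates that a graph is not CIS: a maximal clique and a maximal stable
set that are disjoint. -/
def chkC (p : List (List Bool) × List ℕ × List ℕ) : Bool :=
  (p.2.1.all fun i => decide (i < p.1.length)) &&
  (p.2.2.all fun i => decide (i < p.1.length)) &&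
  (p.2.1.all fun i => p.2.1.all fun j => decide (i = j) || adjB p.1 i j) &&
  (p.2.2.all fun i => p.2.2.all fun j => !adjB p.1 i j) &&
  ((List.range p.1.length).all fun x => decide (x ∈ p.2.1) || p.2.1.any fun i => !adjB p.1 i x) &&
  ((List.range p.1.length).all fun x => decide (x ∈ p.2.2) || p.2.2.any fun i => adjB p.1 i x) &&
  (p.2.1.all fun i => !decide (i ∈ p.2.2))

theorem chkC_poly : Poly chkC := by
  unfold chkC
  have h1 : Poly (fun p : List (List Bool) × List ℕ × List ℕ => List.range p.1.length) :=
    Poly.range_length (Poly.fst Poly.id)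
  have h2 : Poly (fun p : List (List Bool) × List ℕ × List ℕ =>
      (List.range p.1.length).all fun x => decide (x ∈ p.2.1) ||
        p.2.1.any fun i => !adjB p.1 i x) := by
    refine Poly.all (p := fun (p : List (List Bool) × List ℕ × List ℕ) x =>
      decide (x ∈ p.2.1) || p.2.1.any fun i => !adjB p.1 i x) h1 ?_
    fun_prop
  have h3 : Poly (fun p : List (List Bool) × List ℕ × List ℕ =>
      (List.range p.1.length).all fun x => decide (x ∈ p.2.2) ||
        p.2.2.any fun i => adjB p.1 i x) := by
    refine Poly.all (p := fun (p : List (List Bool) × List ℕ × List ℕ) x =>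
      decide (x ∈ p.2.2) || p.2.2.any fun i => adjB p.1 i x) h1 ?_
    fun_prop
  fun_prop

/-- The list of the elements of a set of indices. -/
theorem exists_list {N : ℕ} (S : Set (Fin N)) :
    ∃ T : List ℕ, sz T ≤ N * (4 * N + 2) + 1 ∧
      ∀ i : ℕ, i ∈ T ↔ ∃ h : i < N, (⟨i, h⟩ : Fin N) ∈ S := by
  classical
  refine ⟨(List.range N).filter (fun i => decide (∃ h : i < N, (⟨i, h⟩ : Fin N) ∈ S)), ?_, ?_⟩
  · exact (sz_filter_le _ _).trans (Poly.sz_range_le N N le_rfl)
  · intro i
    simp only [List.mem_filter, List.mem_range, decide_eq_true_eq]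
    exact ⟨fun h => h.2, fun h => ⟨h.1, h⟩⟩

theorem not_cis_iff (M : List (List Bool)) :
    ¬ IsCIS (matGraph M) ↔
      ∃ w : List ℕ × List ℕ, sz w ≤ (Polynomial.C 8 * Polynomial.X * Polynomial.X +
        Polynomial.C 20 * Polynomial.X + Polynomial.C 20 : Polynomial ℕ).eval (sz M) ∧
        chkC (M, w) = true := by
  classical
  constructor
  · intro h
    unfold IsCIS at h
    push Not at h
    obtain ⟨C, S, hC, hS, hdis⟩ := h
    obtain ⟨T, hTs, hT⟩ := exists_list C
    obtain ⟨U, hUs, hU⟩ := exists_list S
    refine ⟨(T, U), ?_, ?_⟩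
    · have h5 := length_lt_sz M
      simp only [sz_pair, Polynomial.eval_add, Polynomial.eval_mul, Polynomial.eval_C,
        Polynomial.eval_X]
      nlinarith
    · simp only [chkC, Bool.and_eq_true, List.all_eq_true, decide_eq_true_eq, Bool.not_eq_true',
        Bool.or_eq_true, List.any_eq_true, List.mem_range, decide_eq_false_iff_not]
      refine ⟨⟨⟨⟨⟨⟨?_, ?_⟩, ?_⟩, ?_⟩, ?_⟩, ?_⟩, ?_⟩
      · intro i hi
        exact ((hT i).1 hi).1
      · intro i hi
        exact ((hU i).1 hi).1
      · intro i hi j hj
        obtain ⟨hi1, hi2⟩ := (hT i).1 hi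
        obtain ⟨hj1, hj2⟩ := (hT j).1 hj
        by_cases hij : i = j
        · exact Or.inl hij
        · right
          rw [adjB_iff M ⟨i, hi1⟩ ⟨j, hj1⟩]
          exact hC.1 hi2 hj2 (by simpa using hij)
      · intro i hi j hj
        obtain ⟨hi1, hi2⟩ := (hU i).1 hi
        obtain ⟨hj1, hj2⟩ := (hU j).1 hj
        rw [← Bool.not_eq_true, adjB_iff M ⟨i, hi1⟩ ⟨j, hj1⟩]
        intro hadj
        exact hS.1 hi2 hj2 hadj.ne hadj
      · intro x hx
        by_cases hxS : (⟨x, hx⟩ : Fin M.length) ∈ C
        · exact Or.inl ((hT x).2 ⟨hx, hxS⟩)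
        · right
          by_contra hcon
          push Not at hcon
          apply hxS
          have hadjx : ∀ b : Fin M.length, b ∈ C → (matGraph M).Adj b ⟨x, hx⟩ := by
            intro b hb
            have := hcon b.1 ((hT b.1).2 ⟨b.2, hb⟩)
            exact (adjB_iff M b ⟨x, hx⟩).1 (by simpa using this)
          have h1 : (matGraph M).IsClique (insert ⟨x, hx⟩ C) := by
            intro a ha b hb hab
            rcases ha with rfl | ha
            · rcases hb with rfl | hb
              · exact absurd rfl hab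
              · exact (hadjx b hb).symm
            · rcases hb with rfl | hb
              · exact hadjx a ha
              · exact hC.1 ha hb hab
          exact hC.2 h1 (Set.subset_insert _ _) (Set.mem_insert _ _)
      · intro x hx
        by_cases hxS : (⟨x, hx⟩ : Fin M.length) ∈ S
        · exact Or.inl ((hU x).2 ⟨hx, hxS⟩)
        · right
          by_contra hcon
          push Not at hcon
          apply hxS
          have h1 : (matGraph M).IsIndepSet (insert ⟨x, hx⟩ S) := by
            intro a ha b hb hab hadj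
            rcases ha with rfl | ha
            · rcases hb with rfl | hb
              · exact hab rfl
              · exact hcon b.1 ((hU b.1).2 ⟨b.2, hb⟩) ((adjB_iff M b ⟨x, hx⟩).2 hadj.symm)
            · rcases hb with rfl | hb
              · exact hcon a.1 ((hU a.1).2 ⟨a.2, ha⟩) ((adjB_iff M a ⟨x, hx⟩).2 hadj)
              · exact hS.1 ha hb hab hadj
          exact hS.2 h1 (Set.subset_insert _ _) (Set.mem_insert _ _)
      · intro i hi hi'
        obtain ⟨hi1, hi2⟩ := (hT i).1 hi
        obtain ⟨_, hi3⟩ := (hU i).1 hi'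
        have : (⟨i, hi1⟩ : Fin M.length) ∈ C ∩ S := ⟨hi2, hi3⟩
        rw [hdis] at this
        exact this
  · rintro ⟨⟨T, U⟩, -, hc⟩ h
    simp only [chkC, Bool.and_eq_true, List.all_eq_true, decide_eq_true_eq, Bool.not_eq_true',
        Bool.or_eq_true, List.any_eq_true, List.mem_range, decide_eq_false_iff_not] at hc
    obtain ⟨⟨⟨⟨⟨⟨c1, c2⟩, c3⟩, c4⟩, c5⟩, c6⟩, c7⟩ := hc
    have hmaxC : Maximal (matGraph M).IsClique {x : Fin M.length | (x : ℕ) ∈ T} := by
      refine ⟨?_, ?_⟩
      · intro a ha b hb hab
        rcases c3 _ ha _ hb with h1 | h1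
        · exact absurd (Fin.ext h1) hab
        · exact (adjB_iff M a b).1 h1
      · intro T' hT' hTT' x hx
        rcases c5 x.1 x.2 with h1 | ⟨i, hi, h1⟩
        · exact h1
        · by_cases hix : i = x.1
          · change (x : ℕ) ∈ T
            rw [← hix]
            exact hi
          · exfalso
            have h2 : (⟨i, c1 i hi⟩ : Fin M.length) ∈ T' := hTT' hi
            have h3 := hT' h2 hx (by intro h; exact hix (congrArg Fin.val h))
            rw [← adjB_iff M ⟨i, c1 i hi⟩ x] at h3
            rw [h1] at h3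
            exact absurd h3 (by simp)
    have hmaxS : Maximal (matGraph M).IsIndepSet {x : Fin M.length | (x : ℕ) ∈ U} := by
      refine ⟨?_, ?_⟩
      · intro a ha b hb _ hadj
        have h1 := c4 _ ha _ hb
        rw [(adjB_iff M a b).2 hadj] at h1
        exact absurd h1 (by simp)
      · intro T' hT' hTT' x hx
        rcases c6 x.1 x.2 with h1 | ⟨i, hi, h1⟩
        · exact h1
        · exfalso
          have h2 : (⟨i, c2 i hi⟩ : Fin M.length) ∈ T' := hTT' hi
          have h3 := (adjB_iff M ⟨i, c2 i hi⟩ x).1 h1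
          exact hT' h2 hx h3.ne h3
    obtain ⟨x, hx1, hx2⟩ := h _ _ hmaxC hmaxS
    exact c7 _ hx1 hx2

theorem inCoNP_cis : InCoNPP (fun M : List (List Bool) => IsCIS (matGraph M)) :=
  inCoNPP_of chkC_poly _ not_cis_iff

end Pool.Agent.W950
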